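import Pool.Agent.H986R2.TwoP.Lattice
import Pool.Agent.H986R2.TwoP.One

open Filter Topology Pool.Agent.H986R2.TwoP

namespace Pool.Agent.Results.MP_9cae81_pr.UpperBound

/-- For every `p ∈ (0.4064, 1]` there is a ratio `r < 1/(1-p)` at which the random `(2+p)`-SAT formula
is unsatisfiable with high probability; consequently the critical mixing parameter satisfies
`p_c ≤ 0.4064`. -/
theorem result :
    (∀ p : ℝ, 0.4064 < p → p ≤ 1 → ∃ r : ℝ, 0 < r ∧ r * (1 - p) < 1 ∧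
      Tendsto (fun n : ℕ => probSat n ⌊r * n⌋₊ p) atTop (𝓝 0)) ∧
    pc ≤ 0.4064 := by
  have h : ∀ p : ℝ, 0.4064 < p → p ≤ 1 → ∃ r : ℝ, 0 < r ∧ r * (1 - p) < 1 ∧
      Tendsto (fun n : ℕ => probSat n ⌊r * n⌋₊ p) atTop (𝓝 0) := by
    intro p hp hp1
    rcases lt_or_eq_of_le hp1 with h1 | h1
    · exact main_lt p hp h1
    · subst h1
      exact main_one
  refine ⟨h, ?_⟩
  unfold pc
  refine Real.sSup_le ?_ (by norm_num)
  rintro p ⟨_, hp1, hp2⟩
  by_contra hcon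
  obtain ⟨r, hr0, hr1, hr2⟩ := h p (not_le.1 hcon) hp1
  have := tendsto_nhds_unique hr2 (hp2 r hr0 hr1)
  norm_num at this

end Pool.Agent.Results.MP_9cae81_pr.UpperBound
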